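import Pool.Agent.H31.GRev

set_option autoImplicit false

open Pool.Agent.H31

theorem Pool.Agent.Results.MP_f1805c_gt.Neg.result :
    ∃ (G : Type) (τ : TopologicalSpace G) (_ : AddCommGroup G), IsTopologicalAddGroup G ∧
      T2Space G ∧ CountablyCompactSpace G ∧
      (∀ f : G → ℝ, Continuous f → ∃ C : ℝ, ∀ x, |f x| ≤ C) ∧
      (∀ f : G ≃+ G, Continuous f → IsOpenMap f) ∧
      ∃ t : TopologicalSpace G, @IsTopologicalAddGroup G t _ ∧ @T2Space G t ∧
        (∀ U, t.IsOpen U → τ.IsOpen U) ∧ t ≠ τ :=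
  ⟨GRev.G, instTopologicalSpaceSubtype, inferInstance, inferInstance, inferInstance,
    ⟨isCountablyCompact_iff_countable_open_cover.2 fun U hU h =>
      (GRev.cc U hU (Set.univ_subset_iff.1 h)).imp fun _ h => h.ge⟩, GRev.pc,
    fun f => GRev.rev f.toEquiv, GRev.coarse.imp fun _ h => ⟨h.1, h.2.1, h.2.2.le, h.2.2.ne'⟩⟩
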